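import Mathlib

namespace Pool.Agent.Results.MP_52d248_al.Rat

open CategoryTheory TensorProduct

universe u v

/-- `(L, η)` is a localization functor on groups. -/
def IsLoc (L : GrpCat.{u} ⥤ GrpCat.{u}) (η : 𝟭 GrpCat.{u} ⟶ L) : Prop :=
  ∀ G, L.map (η.app G) = η.app (L.obj G) ∧ IsIso (η.app (L.obj G))

/-- `1 → N → E → G → 1` is short exact. -/
def IsExt {N E G : GrpCat.{u}} (i : N ⟶ E) (p : E ⟶ G) : Prop :=
  Function.Injective i.hom ∧ Function.Surjective p.hom ∧ i.hom.range = p.hom.ker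

/-- The fibre product `E ×_G H`. -/
def pb {E G H : GrpCat.{u}} (p : E ⟶ G) (f : H ⟶ G) : Subgroup (E × H) :=
  (p.hom.comp (MonoidHom.fst E H)).eqLocus (f.hom.comp (MonoidHom.snd E H))

/-- The inclusion `N → E ×_G H`, `n ↦ (i n, 1)`. -/
def pbi {N E G H : GrpCat.{u}} {i : N ⟶ E} {p : E ⟶ G} (h : IsExt i p) (f : H ⟶ G) :
    N ⟶ GrpCat.of (pb p f) :=
  GrpCat.ofHom ((i.hom.prod 1).codRestrict _ fun n => by
    have : i.hom n ∈ p.hom.ker := h.2.2 ▸ ⟨n, rfl⟩
    exact (MonoidHom.mem_ker.1 this).trans (map_one f.hom).symm)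

/-- The projection `E ×_G H → H`. -/
def pbp {E G H : GrpCat.{u}} (p : E ⟶ G) (f : H ⟶ G) : GrpCat.of (pb p f) ⟶ H :=
  GrpCat.ofHom ((MonoidHom.snd E H).comp (pb p f).subtype)

/-- Pullbacks of `L`-flat extensions are `L`-flat. -/
def CondFlat (L : GrpCat.{u} ⥤ GrpCat.{u}) : Prop :=
  ∀ (N E G H : GrpCat.{u}) (i : N ⟶ E) (p : E ⟶ G) (h : IsExt i p) (f : H ⟶ G),
    IsExt (L.map i) (L.map p) → IsExt (L.map (pbi h f)) (L.map (pbp p f))

noncomputable section

abbrev T (G : Type u) [Group G] := ℚ ⊗[ℤ] Additive (Abelianization G)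

variable {G H K : Type u} [Group G] [Group H] [Group K] {V : Type v} [AddCommGroup V] [Module ℚ V]

def φ (G : Type u) [Group G] : G →* Multiplicative (T G) :=
  MonoidHom.mk' (fun g => .ofAdd ((1 : ℚ) ⊗ₜ[ℤ] Additive.ofMul (Abelianization.of g)))
    fun a b => by rw [map_mul, ofMul_mul, tmul_add, ofAdd_add]

def e (g : G) : T G := (φ G g).toAdd

theorem span (S : Submodule ℚ (T G)) (h : ∀ g, e g ∈ S) (x : T G) : x ∈ S := by
  induction x using TensorProduct.induction_on with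
  | zero => exact S.zero_mem
  | add a b ha hb => exact S.add_mem ha hb
  | tmul q a =>
    obtain ⟨g, hg⟩ : ∃ g, Abelianization.of g = a.toMul := QuotientGroup.mk_surjective _
    have : q ⊗ₜ[ℤ] a = q • e g := by
      show _ = q • ((1 : ℚ) ⊗ₜ[ℤ] Additive.ofMul (Abelianization.of g))
      rw [hg, smul_tmul', smul_eq_mul, mul_one, ofMul_toMul]
    rw [this]
    exact S.smul_mem _ (h g)

theorem ext {a b : T G →ₗ[ℚ] V} (h : ∀ g, a (e g) = b (e g)) : a = b :=
  LinearMap.ext (span (LinearMap.eqLocus a b) h)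

def lift (ψ : G →* Multiplicative V) : T G →ₗ[ℚ] V :=
  LinearMap.liftBaseChange ℚ (MonoidHom.toAdditiveLeft (Abelianization.lift ψ)).toIntLinearMap

theorem lift_e (ψ : G →* Multiplicative V) (g : G) : lift ψ (e g) = (ψ g).toAdd := by
  show lift ψ ((1 : ℚ) ⊗ₜ[ℤ] Additive.ofMul (Abelianization.of g)) = _
  simp [lift]

def mp (f : G →* H) : T G →ₗ[ℚ] T H := lift ((φ H).comp f)

theorem mp_e (f : G →* H) (g : G) : mp f (e g) = e (f g) := lift_e _ _

theorem mp_comp (f : G →* H) (g : H →* K) (x : T G) : mp (g.comp f) x = mp g (mp f x) :=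
  LinearMap.congr_fun (ext (b := mp g ∘ₗ mp f) fun a => by simp [mp_e]) x

def L : GrpCat.{u} ⥤ GrpCat.{u} where
  obj G := GrpCat.of (Multiplicative (T G))
  map f := GrpCat.ofHom (AddMonoidHom.toMultiplicative (mp f.hom).toAddMonoidHom)
  map_id G := GrpCat.hom_ext (MonoidHom.ext fun x => LinearMap.congr_fun
    (ext (a := mp (MonoidHom.id G)) (b := LinearMap.id) fun a => mp_e _ _) x.toAdd)
  map_comp f g := GrpCat.hom_ext (MonoidHom.ext fun x => mp_comp f.hom g.hom x.toAdd)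

def η : 𝟭 GrpCat.{u} ⟶ L where
  app G := GrpCat.ofHom (φ G)
  naturality _ _ f := GrpCat.hom_ext (MonoidHom.ext fun x => (mp_e f.hom x).symm)

def lin (G : Type u) [Group G] : T G →ₗ[ℚ] T (Multiplicative (T G)) :=
  (AddMonoidHom.mk' (fun x => e (Multiplicative.ofAdd x)) fun a b =>
    congrArg Multiplicative.toAdd
      (map_mul (φ _) (Multiplicative.ofAdd a) (Multiplicative.ofAdd b))).toRatLinearMap

theorem surj (p : G →* H) (hp : Function.Surjective p) : Function.Surjective (mp p) := fun x =>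
  span (LinearMap.range (mp p)) (fun h => by
    obtain ⟨g, rfl⟩ := hp h
    exact ⟨_, mp_e _ _⟩) x

theorem exact (i : K →* G) (p : G →* H) (hp : Function.Surjective p) (h : i.range = p.ker)
    (x : T G) : (∃ y, mp i y = x) ↔ mp p x = 0 := by
  constructor
  · rintro ⟨y, rfl⟩
    refine LinearMap.congr_fun (ext (a := mp p ∘ₗ mp i) (b := 0) fun a => ?_) y
    have : i a ∈ p.ker := h ▸ ⟨a, rfl⟩
    simp only [LinearMap.comp_apply, mp_e, MonoidHom.mem_ker.1 this, LinearMap.zero_apply]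
    simp [e]
  · intro hx
    let R := LinearMap.range (mp i)
    let χ : G →* Multiplicative (T G ⧸ R) :=
      (AddMonoidHom.toMultiplicative R.mkQ.toAddMonoidHom).comp (φ G)
    have hk : p.ker ≤ χ.ker := by
      rw [← h]
      rintro _ ⟨a, rfl⟩
      exact (Submodule.Quotient.mk_eq_zero R).2 ⟨_, mp_e i a⟩
    let ψ := p.liftOfSurjective hp ⟨χ, hk⟩
    have : lift ψ ∘ₗ mp p = R.mkQ := ext fun g => by
      rw [LinearMap.comp_apply, mp_e, lift_e]
      exact congrArg Multiplicative.toAdd (MonoidHom.liftOfRightInverse_comp_apply p _ _ ⟨χ, hk⟩ g)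
    have h2 := LinearMap.congr_fun this x
    rw [LinearMap.comp_apply, hx, map_zero] at h2
    exact (Submodule.Quotient.mk_eq_zero R).1 h2.symm

end

theorem result : ∃ (L : GrpCat.{u} ⥤ GrpCat.{u}) (η : 𝟭 GrpCat.{u} ⟶ L),
    IsLoc L η ∧ CondFlat L ∧ ¬ ∀ G, Function.Surjective (η.app G).hom := by
  refine ⟨L, η, fun G => ⟨?_, ?_⟩, fun N E G H i p h f hf => ?_, fun hs => ?_⟩
  · exact GrpCat.hom_ext (MonoidHom.ext fun x => LinearMap.congr_fun
      (ext (a := mp (φ G)) (b := lin G) fun a => mp_e _ _) x.toAdd)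
  · let r : T (Multiplicative (T G)) →ₗ[ℚ] T G := lift (MonoidHom.id _)
    refine ⟨GrpCat.ofHom (AddMonoidHom.toMultiplicative r.toAddMonoidHom), ?_, ?_⟩
    · exact GrpCat.hom_ext (MonoidHom.ext fun x =>
        lift_e (MonoidHom.id (Multiplicative (T G))) x)
    · refine GrpCat.hom_ext (MonoidHom.ext fun x => LinearMap.congr_fun
        (ext (a := lin G ∘ₗ r) (b := LinearMap.id) fun a => ?_) x.toAdd)
      rw [LinearMap.comp_apply, lift_e]
      rfl
  · have hp : Function.Surjective (pbp p f).hom := fun y => by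
      obtain ⟨x, hx⟩ := h.2.1 (f.hom y)
      exact ⟨⟨(x, y), hx⟩, rfl⟩
    have he : (pbi h f).hom.range = (pbp p f).hom.ker := by
      ext ⟨⟨x, y⟩, hxy⟩
      constructor
      · rintro ⟨n, hn⟩
        rw [← hn]
        rfl
      · intro hy
        have hy' : y = 1 := hy
        subst hy'
        have : x ∈ i.hom.range := h.2.2 ▸ (hxy.trans (map_one f.hom))
        obtain ⟨n, rfl⟩ := this
        exact ⟨n, rfl⟩
    refine ⟨?_, surj _ hp, Subgroup.ext fun x => exact _ _ hp he x.toAdd⟩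
    let q : pb p f →* E := (MonoidHom.fst E H).comp (pb p f).subtype
    intro a b hab
    refine hf.1 ?_
    have hab' : mp (pbi h f).hom a.toAdd = mp (pbi h f).hom b.toAdd := hab
    exact (mp_comp (pbi h f).hom q a.toAdd).trans
      ((congrArg (mp q) hab').trans (mp_comp (pbi h f).hom q b.toAdd).symm)
  · let G := Multiplicative (ULift.{u} ℤ)
    let ψ : G →* Multiplicative ℚ := MonoidHom.mk' (fun n => .ofAdd (n.toAdd.down : ℚ))
      fun a b => by simp [G, ← ofAdd_add]
    obtain ⟨n, hn⟩ := hs (GrpCat.of G) (.ofAdd ((1 / 2 : ℚ) • e (G := G) (.ofAdd ⟨1⟩)))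
    have h1 : e (G := G) n = (1 / 2 : ℚ) • e (G := G) (.ofAdd ⟨1⟩) := hn
    have h2 := congrArg (lift ψ) h1
    rw [map_smul, lift_e, lift_e] at h2
    have h3 : ((Multiplicative.toAdd n).down : ℚ) = (1 / 2 : ℚ) • ((1 : ℤ) : ℚ) := h2
    have h4 : 2 * (Multiplicative.toAdd n).down = 1 := by
      have : (2 * (Multiplicative.toAdd n).down : ℚ) = 1 := by rw [h3]; norm_num
      exact_mod_cast this
    omega

end Pool.Agent.Results.MP_52d248_al.Rat
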